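import Mathlib

/-! Tree forcing along an ultrafilter (Laver style trees with large splitting sets).
Nodes are lists with the latest entry first. -/

set_option autoImplicit false

namespace Pool.Agent.MP_aa180b_lc.H48

open Set Filter Topology

universe u
variable {Ω : Type u}

/-- the first `k` entries of `a`, latest first -/
def pre {α : Type*} (a : ℕ → α) : ℕ → List α
  | 0 => []
  | k + 1 => a k :: pre a k

@[simp] theorem pre_zero {α : Type*} (a : ℕ → α) : pre a 0 = [] := rfl
@[simp] theorem pre_succ {α : Type*} (a : ℕ → α) (k : ℕ) : pre a (k + 1) = a k :: pre a k := rfl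

@[simp] theorem length_pre {α : Type*} (a : ℕ → α) (k : ℕ) : (pre a k).length = k := by
  induction k with
  | zero => rfl
  | succ k ih => simp [ih]

theorem pre_eq_iff {α : Type*} (a b : ℕ → α) (k : ℕ) :
    pre a k = pre b k ↔ ∀ i < k, a i = b i := by
  induction k with
  | zero => simp
  | succ k ih =>
    simp only [pre_succ, List.cons.injEq, ih]
    constructor
    · rintro ⟨h1, h2⟩ i hi
      rcases Nat.lt_succ_iff_lt_or_eq.1 hi with h | rfl
      exacts [h2 i h, h1]
    · intro h
      exact ⟨h k (by omega), fun i hi => h i (by omega)⟩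

theorem drop_pre {α : Type*} (a : ℕ → α) (k m : ℕ) : (pre a (k + m)).drop m = pre a k := by
  induction m with
  | zero => simp
  | succ m ih => rw [← Nat.add_assoc, pre_succ, List.drop_succ_cons, ih]

/-- the `n`-fold shift -/
def sh {α : Type*} (n : ℕ) (a : ℕ → α) : ℕ → α := fun k => a (k + n)

@[simp] theorem sh_zero {α : Type*} (a : ℕ → α) : sh 0 a = a := rfl

theorem sh_sh {α : Type*} (m n : ℕ) (a : ℕ → α) : sh m (sh n a) = sh (m + n) a := by
  funext k; simp [sh, Nat.add_assoc]

theorem sh_comp_succ {α : Type*} (n : ℕ) (a : ℕ → α) : sh n a ∘ Nat.succ = sh (n + 1) a := by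
  funext k; simp only [sh, Function.comp]; congr 1; omega

theorem take_pre {α : Type*} (a : ℕ → α) (m k : ℕ) :
    (pre a (k + m)).take k = pre (sh m a) k := by
  induction k with
  | zero => simp
  | succ k ih =>
    have : k + 1 + m = (k + m) + 1 := by omega
    rw [this, pre_succ, List.take_succ_cons, ih, pre_succ]; rfl

/-- the node `s` forces `Z` -/
def Force (W : Ultrafilter Ω) (s : List Ω) (Z : Set (ℕ → Ω)) : Prop :=
  ∃ A : List Ω → Set Ω, (∀ t, A t ∈ W) ∧
    ∀ a : ℕ → Ω, pre a s.length = s → (∀ k, s.length ≤ k → a k ∈ A (pre a k)) → a ∈ Z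

variable {W : Ultrafilter Ω}

theorem Force.mono' {s : List Ω} {Z Z' : Set (ℕ → Ω)} (h : Force W s Z)
    (hz : ∀ a, pre a s.length = s → a ∈ Z → a ∈ Z') : Force W s Z' := by
  obtain ⟨A, hA, h⟩ := h
  exact ⟨A, hA, fun a ha hk => hz a ha (h a ha hk)⟩

theorem Force.mono {s : List Ω} {Z Z' : Set (ℕ → Ω)} (h : Force W s Z)
    (hz : Z ⊆ Z') : Force W s Z' := h.mono' fun _ _ ha => hz ha

theorem force_of_forall {s : List Ω} {Z : Set (ℕ → Ω)}
    (hz : ∀ a, pre a s.length = s → a ∈ Z) : Force W s Z :=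
  ⟨fun _ => univ, fun _ => univ_mem, fun a ha _ => hz a ha⟩

theorem Force.inter {s : List Ω} {Z Z' : Set (ℕ → Ω)} (h : Force W s Z) (h' : Force W s Z') :
    Force W s (Z ∩ Z') := by
  obtain ⟨A, hA, h⟩ := h
  obtain ⟨A', hA', h'⟩ := h'
  exact ⟨fun t => A t ∩ A' t, fun t => inter_mem (hA t) (hA' t), fun a ha hk =>
    ⟨h a ha fun k hk' => (hk k hk').1, h' a ha fun k hk' => (hk k hk').2⟩⟩

theorem force_list {σ : Type*} {s : List Ω} (L : List σ) (Z : σ → Set (ℕ → Ω))
    (h : ∀ q ∈ L, Force W s (Z q)) : Force W s {a | ∀ q ∈ L, a ∈ Z q} := by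
  induction L with
  | nil => exact force_of_forall (by simp)
  | cons q L ih =>
    refine ((h q (by simp)).inter (ih fun q' hq' => h q' (by simp [hq']))).mono ?_
    rintro a ⟨h1, h2⟩ q' hq'
    rcases List.mem_cons.1 hq' with rfl | hq'
    exacts [h1, h2 q' hq']

theorem Force.exists {b : ℕ → Ω} {m : ℕ} {Z : Set (ℕ → Ω)} (h : Force W (pre b m) Z) :
    ∃ a ∈ Z, pre a m = pre b m := by
  classical
  obtain ⟨A, hA, h⟩ := h
  have hne : ∀ t, (A t).Nonempty := fun t => Ultrafilter.nonempty_of_mem (hA t)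
  choose ch hch using hne
  let L : ℕ → List Ω := fun n => Nat.rec [] (fun n l => (if n < m then b n else ch l) :: l) n
  let a : ℕ → Ω := fun n => if n < m then b n else ch (L n)
  have hL : ∀ n, pre a n = L n := by
    intro n
    induction n with
    | zero => rfl
    | succ n ih => rw [pre_succ, ih]
  have h1 : pre a m = pre b m := (pre_eq_iff _ _ _).2 fun i hi => by simp [a, hi]
  refine ⟨a, h a (by simpa using h1) fun k hk => ?_, h1⟩
  rw [length_pre] at hk
  rw [hL]
  simp only [a, if_neg (not_lt.2 hk)]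
  exact hch _

theorem Force.exists_root {Z : Set (ℕ → Ω)} (h : Force W [] Z) : ∃ a, a ∈ Z := by
  obtain ⟨x, -⟩ := Ultrafilter.nonempty_of_mem (f := W) univ_mem
  obtain ⟨a, ha, -⟩ := Force.exists (b := fun _ => x) (m := 0) h
  exact ⟨a, ha⟩

/-- fusion -/
theorem fusion (s : List Ω) (Z : List Ω → Set (ℕ → Ω)) (h : ∀ t, Force W t (Z t)) :
    Force W s {a | ∀ k, s.length ≤ k → a ∈ Z (pre a k)} := by
  choose A hA h using h
  refine ⟨fun u => ⋂ m ∈ Finset.range (u.length + 1), A (u.drop m) u, fun u => ?_, ?_⟩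
  · exact (biInter_finset_mem _).2 fun m _ => hA _ _
  · intro a _ hk k hsk
    refine h _ a (by simp) fun j hj => ?_
    rw [length_pre] at hj
    have := hk j (hsk.trans hj)
    simp only [mem_iInter] at this
    have h2 := this (j - k) (by simp)
    have h3 : (pre a j).drop (j - k) = pre a k := by
      have := drop_pre a k (j - k)
      rwa [Nat.add_sub_cancel' hj] at this
    rwa [h3] at h2

theorem force_step {s : List Ω} {Z : Set (ℕ → Ω)} (h : {x | Force W (x :: s) Z} ∈ W) :
    Force W s Z := by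
  classical
  have h1 := fusion (W := W) s (fun t => if Force W t Z then Z else univ) (fun t => by
    split_ifs with ht
    exacts [ht, force_of_forall (by simp)])
  have h2 : Force W s {a | Force W (a s.length :: s) Z} :=
    ⟨fun t => if t = s then {x | Force W (x :: s) Z} else univ,
      fun t => by beta_reduce; split_ifs; exacts [h, univ_mem],
      fun a ha hk => by simpa [ha] using hk s.length le_rfl⟩
  refine (h1.inter h2).mono' ?_
  rintro a ha ⟨h3, h4⟩
  have := h3 (s.length + 1) (by omega)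
  rw [pre_succ, ha, if_pos (show Force W (a s.length :: s) Z from h4)] at this
  exact this

/-- open dichotomy -/
theorem dichotomy (N : Set (List Ω)) (s : List Ω) :
    Force W s {a | ∃ k, s.length < k ∧ pre a k ∈ N} ∨
      Force W s {a | ∀ k, s.length < k → pre a k ∉ N} := by
  classical
  set H : List Ω → Prop := fun t => Force W t {a | ∃ k, t.length < k ∧ pre a k ∈ N} with hH
  by_cases hs : H s
  · exact Or.inl hs
  right
  have key : ∀ t, ¬ H t → {x | x :: t ∉ N ∧ ¬ H (x :: t)} ∈ W := by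
    intro t ht
    by_contra hc
    rw [← Ultrafilter.compl_mem_iff_notMem] at hc
    apply ht
    apply force_step
    filter_upwards [hc] with x hx
    by_cases hN : x :: t ∈ N
    · exact force_of_forall fun a ha => ⟨(x :: t).length, by simp, by rwa [ha]⟩
    · have : H (x :: t) := by
        by_contra h'
        exact hx ⟨hN, h'⟩
      refine Force.mono this ?_
      rintro a ⟨k, hk, hk'⟩
      exact ⟨k, by simp at hk; omega, hk'⟩
  refine ⟨fun t => if H t then univ else {x | x :: t ∉ N ∧ ¬ H (x :: t)}, fun t => ?_, ?_⟩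
  · beta_reduce
    split_ifs with ht
    exacts [univ_mem, key t ht]
  · intro a ha hk
    beta_reduce at hk
    have h1 : ∀ k, s.length ≤ k → ¬ H (pre a k) := by
      intro k hk'
      induction k, hk' using Nat.le_induction with
      | base => rwa [ha]
      | succ k hk' ih =>
        have := hk k hk'
        rw [if_neg ih] at this
        exact this.2
    intro k hk'
    obtain ⟨k, rfl⟩ : ∃ j, k = j + 1 := ⟨k - 1, by omega⟩
    have := hk k (by omega)
    rw [if_neg (h1 k (by omega))] at this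
    exact this.1

/-- a node that does not reject a countable union forces a later node that does not reject
one of the pieces -/
theorem hit_piece {s : List Ω} (Z : ℕ → Set (ℕ → Ω)) (h : ¬ Force W s (⋃ j, Z j)ᶜ) :
    Force W s {a | ∃ k, s.length < k ∧ ∃ j, ¬ Force W (pre a k) (Z j)ᶜ} := by
  classical
  rcases dichotomy (W := W) {t | ∃ j, ¬ Force W t (Z j)ᶜ} s with h1 | h1
  · exact h1
  exfalso
  apply h
  have h2 := fusion (W := W) s
    (fun t => if ∀ j, Force W t (Z j)ᶜ then {a | ∀ j ∈ List.range t.length, a ∈ (Z j)ᶜ} else univ)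
    (fun t => by
      split_ifs with ht
      exacts [force_list _ _ fun j _ => ht j, force_of_forall (by simp)])
  refine (h1.inter h2).mono ?_
  rintro a ⟨h3, h4⟩
  simp only [mem_compl_iff, mem_iUnion, not_exists]
  intro j
  have h5 := h3 (s.length + j + 1) (by omega)
  have h6 := h4 (s.length + j + 1) (by omega)
  simp only [mem_ofPred_eq, not_exists, not_not] at h5
  rw [if_pos h5] at h6
  exact h6 j (by simp)

theorem force_sh {Z : Set (ℕ → Ω)} (h : Force W [] Z) (t : List Ω) :
    Force W t {a | sh t.length a ∈ Z} := by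
  obtain ⟨A, hA, h⟩ := h
  refine ⟨fun u => A (u.take (u.length - t.length)), fun u => hA _, fun a _ hk => ?_⟩
  refine h _ rfl fun k _ => ?_
  have := hk (k + t.length) (by omega)
  simp only [length_pre, Nat.add_sub_cancel, take_pre] at this
  exact this

theorem force_all_sh (Z : ℕ → Set (ℕ → Ω)) (h : ∀ i, Force W [] (Z i)) :
    Force W [] {a | ∀ i, sh i a ∈ Z i} := by
  refine (fusion (W := W) [] (fun t => {a | sh t.length a ∈ Z t.length})
    fun t => force_sh (h _) t).mono fun a ha i => ?_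
  simpa using ha i (by simp)

/-- fusion with dependent choices -/
theorem dc_fusion {σ : Type*} (P : List Ω → σ → Prop) (R : σ → σ → Prop)
    (h : ∀ t q, P t q → Force W t {a | ∃ k, t.length < k ∧ ∃ q', P (pre a k) q' ∧ R q q'})
    (s : List Ω) (q0 : σ) (h0 : P s q0) :
    Force W s {a | ∃ (k : ℕ → ℕ) (q : ℕ → σ), StrictMono k ∧ q 0 = q0 ∧
      ∀ n, P (pre a (k n)) (q n) ∧ R (q n) (q (n + 1))} := by
  classical
  let ch : List Ω → σ → σ := fun t q => if h : ∃ q', P t q' ∧ R q q' then h.choose else q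
  let L : List Ω → List σ := fun t =>
    List.rec [q0] (fun x t l => l ++ l.map (ch (x :: t))) t
  have hL : ∀ x t, L (x :: t) = L t ++ (L t).map (ch (x :: t)) := fun _ _ => rfl
  have h1 := fusion (W := W) s
    (fun t => {a | ∀ q ∈ L t, a ∈ (if P t q then
      {a | ∃ k, t.length < k ∧ ∃ q', P (pre a k) q' ∧ R q q'} else univ)})
    (fun t => force_list _ _ fun q _ => by
      split_ifs with hq
      exacts [h t q hq, force_of_forall (by simp)])
  refine h1.mono' fun a ha h2 => ?_
  have hmono : ∀ k k', k ≤ k' → ∀ q ∈ L (pre a k), q ∈ L (pre a k') := by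
    intro k k' hk q hq
    induction k', hk using Nat.le_induction with
    | base => exact hq
    | succ k' _ ih => rw [pre_succ, hL]; exact List.mem_append_left _ ih
  have step : ∀ p : {p : ℕ × σ // s.length ≤ p.1 ∧ p.2 ∈ L (pre a p.1) ∧ P (pre a p.1) p.2},
      ∃ p' : {p : ℕ × σ // s.length ≤ p.1 ∧ p.2 ∈ L (pre a p.1) ∧ P (pre a p.1) p.2},
        p.1.1 < p'.1.1 ∧ R p.1.2 p'.1.2 := by
    rintro ⟨⟨k, q⟩, hk, hq, hP⟩
    have h3 := h2 k hk q hq
    rw [if_pos hP] at h3
    obtain ⟨k', hk', hex⟩ := h3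
    rw [length_pre] at hk'
    obtain ⟨k', rfl⟩ : ∃ j, k' = j + 1 := ⟨k' - 1, by omega⟩
    have hc : ch (pre a (k' + 1)) q = hex.choose := dif_pos hex
    refine ⟨⟨(k' + 1, ch (pre a (k' + 1)) q), by simp; omega, ?_, ?_⟩, hk', ?_⟩
    · simp only
      rw [pre_succ, hL]
      exact List.mem_append_right _ (List.mem_map_of_mem (hmono k k' (by omega) q hq))
    · simp only
      rw [hc]; exact hex.choose_spec.1
    · simp only
      rw [hc]; exact hex.choose_spec.2
  choose nx hnx using step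
  let p0 : {p : ℕ × σ // s.length ≤ p.1 ∧ p.2 ∈ L (pre a p.1) ∧ P (pre a p.1) p.2} :=
    ⟨(s.length, q0), le_rfl, hmono 0 _ (by simp) q0 (by simp [L]), by simpa [ha] using h0⟩
  refine ⟨fun n => (nx^[n] p0).1.1, fun n => (nx^[n] p0).1.2,
    strictMono_nat_of_lt_succ fun n => ?_, rfl, fun n => ⟨(nx^[n] p0).2.2.2, ?_⟩⟩
  · rw [Function.iterate_succ_apply']; exact (hnx _).1
  · beta_reduce
    rw [Function.iterate_succ_apply']; exact (hnx _).2

/-- the part of the range of `f` with witnesses through `u` -/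
def cyl (f : (ℕ → ℕ) → (ℕ → ℕ)) (u : List ℕ) : Set (ℕ → ℕ) := f '' {z | pre z u.length = u}

theorem cyl_nil (f : (ℕ → ℕ) → (ℕ → ℕ)) : cyl f [] = range f := by
  simp [cyl]

theorem cyl_eq (f : (ℕ → ℕ) → (ℕ → ℕ)) (u : List ℕ) : cyl f u = ⋃ j, cyl f (j :: u) := by
  ext y
  simp only [cyl, mem_image, mem_ofPred_eq, mem_iUnion, List.length_cons, pre_succ,
    List.cons.injEq]
  constructor
  · rintro ⟨z, hz, rfl⟩
    exact ⟨_, z, ⟨rfl, hz⟩, rfl⟩
  · rintro ⟨j, z, ⟨-, hz⟩, rfl⟩
    exact ⟨z, hz, rfl⟩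

theorem mem_range_of_seq {f : (ℕ → ℕ) → (ℕ → ℕ)} (hf : Continuous f) (y : ℕ → ℕ)
    (u : ℕ → List ℕ) (h0 : u 0 = []) (h : ∀ n, ∃ j, u (n + 1) = j :: u n)
    (hy : ∀ n, ∃ y' ∈ cyl f (u n), ∀ i, i + 1 < n → y' i = y i) : y ∈ range f := by
  choose z hz using h
  have hu : ∀ n, pre z n = u n := by
    intro n
    induction n with
    | zero => exact h0.symm
    | succ n ih => rw [pre_succ, ih, hz]
  have hy' : ∀ n, ∃ w, (∀ i < n, w i = z i) ∧ ∀ i, i + 1 < n → f w i = y i := by
    intro n
    obtain ⟨_, ⟨w, hw, rfl⟩, h2⟩ := hy n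
    refine ⟨w, ?_, h2⟩
    rw [mem_ofPred_eq, ← hu, length_pre, pre_eq_iff] at hw
    exact hw
  choose w hw1 hw2 using hy'
  have t1 : Tendsto w atTop (𝓝 z) := by
    rw [tendsto_pi_nhds]
    intro i
    refine tendsto_const_nhds.congr' ?_
    filter_upwards [eventually_gt_atTop i] with n hn using (hw1 n i hn).symm
  have t2 : Tendsto (fun n => f (w n)) atTop (𝓝 y) := by
    rw [tendsto_pi_nhds]
    intro i
    refine tendsto_const_nhds.congr' ?_
    filter_upwards [eventually_gt_atTop (i + 1)] with n hn using (hw2 n i hn).symm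
  exact ⟨z, tendsto_nhds_unique ((hf.tendsto z).comp t1) t2⟩

theorem exists_of_not_force {s : List Ω} {Z : Set (ℕ → Ω)} (h : ¬ Force W s Zᶜ) :
    ∃ b, pre b s.length = s ∧ b ∈ Z := by
  by_contra hc
  exact h (force_of_forall fun a ha hz => hc ⟨a, ha, hz⟩)

theorem hit_cyl (Y : (ℕ → Ω) → (ℕ → ℕ)) (f : (ℕ → ℕ) → (ℕ → ℕ)) (t : List Ω) (u : List ℕ)
    (h : ¬ Force W t (Y ⁻¹' cyl f u)ᶜ) :
    Force W t {a | ∃ k, t.length < k ∧ ∃ j, ¬ Force W (pre a k) (Y ⁻¹' cyl f (j :: u))ᶜ} := by
  apply hit_piece (fun j => Y ⁻¹' cyl f (j :: u))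
  rwa [← preimage_iUnion, ← cyl_eq]

/-- analytic sets are decided -/
theorem force_analytic (Y : (ℕ → Ω) → (ℕ → ℕ))
    (hY : ∀ a b n, (∀ i < n + 2, a i = b i) → Y a n = Y b n)
    {Z : Set (ℕ → ℕ)} (hZ : MeasureTheory.AnalyticSet Z) (s : List Ω)
    (h : ¬ Force W s (Y ⁻¹' Z)ᶜ) : Force W s (Y ⁻¹' Z) := by
  rw [MeasureTheory.AnalyticSet] at hZ
  rcases hZ with rfl | ⟨f, hf, rfl⟩
  · exact (h (force_of_forall (by simp))).elim
  have h1 := dc_fusion (W := W) (fun t u => ¬ Force W t (Y ⁻¹' cyl f u)ᶜ)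
    (fun u u' => ∃ j, u' = j :: u) (fun t u hu => (hit_cyl Y f t u hu).mono (by
      rintro a ⟨k, hk, j, hj⟩
      exact ⟨k, hk, _, hj, j, rfl⟩)) s [] (by rwa [cyl_nil])
  refine h1.mono ?_
  rintro a ⟨k, u, hk, h0, hu⟩
  refine mem_range_of_seq hf (Y a) u h0 (fun n => (hu n).2) fun n => ?_
  obtain ⟨b, hb, hb'⟩ := exists_of_not_force (hu n).1
  rw [length_pre, pre_eq_iff] at hb
  refine ⟨Y b, hb', fun i hi => hY _ _ _ fun j hj => hb j ?_⟩
  have := hk.id_le n
  simp only [id] at this
  omega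

/-- the sigma algebra of decided sets -/
abbrev decided (W : Ultrafilter Ω) : MeasurableSpace (ℕ → Ω) where
  MeasurableSet' Z := ∀ s, Force W s Z ∨ Force W s Zᶜ
  measurableSet_empty := fun s => Or.inr (force_of_forall (by simp))
  measurableSet_compl := fun Z h s => by rw [compl_compl]; exact (h s).symm
  measurableSet_iUnion := fun Z h s => by
    classical
    by_cases h1 : Force W s (⋃ j, Z j)ᶜ
    · exact Or.inr h1
    left
    have h2 := hit_piece Z h1
    have h3 := fusion (W := W) s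
      (fun t => if Force W t (⋃ j, Z j) then ⋃ j, Z j else univ) (fun t => by
        split_ifs with ht
        exacts [ht, force_of_forall (by simp)])
    refine (h2.inter h3).mono ?_
    rintro a ⟨⟨k, hk, j, hj⟩, h4⟩
    have h5 := h4 k hk.le
    rwa [if_pos (((h j _).resolve_right hj).mono (subset_iUnion Z j))] at h5

end Pool.Agent.MP_aa180b_lc.H48
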