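import Pool.Agent.MP_aa180b_lc.H48.Force

/-! The analytic invariant set: sequences that present, in time, a linear order in which every
immediate descent stops but some delayed descent never stops. -/

set_option autoImplicit false

namespace Pool.Agent.MP_aa180b_lc.H48

open Set Filter Topology MeasureTheory

/-- the map from positions at time `n` to positions at time `n + 1` coded by a number -/
def D (c i : ℕ) : ℕ := (Denumerable.ofNat (List ℕ) (Nat.unpair c).2).getD i 0

/-- every immediate descent from position `i` at time `n` stops within `k` steps -/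
def Dies (y : ℕ → ℕ) : ℕ → ℕ → ℕ → Prop
  | 0, _, _ => False
  | k + 1, n, i => ∀ j < D (y n) i, Dies y k (n + 1) j

def Term (y : ℕ → ℕ) : Prop := ∀ n i, ∃ k, Dies y k n i

def Thread (y g : ℕ → ℕ) : Prop :=
  (∀ n, g (n + 1) ≤ D (y n) (g n)) ∧ ∀ m, ∃ n, m ≤ n ∧ g (n + 1) < D (y n) (g n)

def IF (y : ℕ → ℕ) (i : ℕ) : Prop := ∃ g, g 0 = i ∧ Thread y g

def A : Set (ℕ → ℕ) := {y | StrictMono y ∧ ∃ n, Term (sh n y) ∧ ∃ i, IF (sh n y) i}

theorem Dies.mono {y : ℕ → ℕ} : ∀ {k n i : ℕ}, Dies y k n i → Dies y (k + 1) n i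
  | 0, _, _, h => h.elim
  | _ + 1, _, _, h => fun j hj => (h j hj).mono

theorem Dies.mono' {y : ℕ → ℕ} {k k' n i : ℕ} (h : Dies y k n i) (hk : k ≤ k') :
    Dies y k' n i := by
  induction k', hk using Nat.le_induction with
  | base => exact h
  | succ k' _ ih => exact ih.mono

theorem dies_sh (y : ℕ → ℕ) (m : ℕ) : ∀ k n i, Dies (sh m y) k n i ↔ Dies y k (n + m) i
  | 0, _, _ => Iff.rfl
  | k + 1, n, i => by
    simp only [Dies, dies_sh y m k]
    have : n + 1 + m = n + m + 1 := by omega
    rw [this]; rfl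

theorem Term.sh {y : ℕ → ℕ} (h : Term y) (m : ℕ) : Term (sh m y) := fun n i => by
  simp only [dies_sh]; exact h _ _

theorem Thread.sh {y g : ℕ → ℕ} (h : Thread y g) (m : ℕ) : Thread (sh m y) (sh m g) := by
  refine ⟨fun n => ?_, fun k => ?_⟩
  · have := h.1 (n + m)
    simp only [H48.sh]
    rwa [show n + 1 + m = n + m + 1 by omega]
  · obtain ⟨n, hn, h2⟩ := h.2 (k + m)
    refine ⟨n - m, by omega, ?_⟩
    simp only [H48.sh]
    rwa [show n - m + 1 + m = n + 1 by omega, show n - m + m = n by omega]

theorem not_descent {y i : ℕ → ℕ} (h : ∀ n, i (n + 1) < D (y n) (i n)) :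
    ∀ k n, ¬ Dies y k n (i n)
  | 0, _ => id
  | k + 1, n => fun hd => not_descent h k (n + 1) (hd _ (h n))

theorem A_invariant (x y : ℕ → ℕ) (hy : StrictMono y)
    (h : ∃ m n : ℕ, ∀ k : ℕ, x (m + k) = y (n + k)) (hx : x ∈ A) : y ∈ A := by
  obtain ⟨m, n, h⟩ := h
  obtain ⟨-, p, h1, i, g, -, h2⟩ := hx
  have e : sh m (sh p x) = sh (p + n) y := by
    funext k
    have := h (k + p)
    simp only [sh]
    rw [show k + m + p = m + (k + p) by omega, show k + (p + n) = n + (k + p) by omega, this]
  exact ⟨hy, p + n, e ▸ h1.sh m, _, sh m g, rfl, e ▸ h2.sh m⟩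

/-! Measurability -/

theorem measurable_sh (n : ℕ) : Measurable (sh n : (ℕ → ℕ) → (ℕ → ℕ)) :=
  measurable_pi_lambda _ fun _ => measurable_pi_apply _

theorem measurable_D {α : Type*} [MeasurableSpace α] {c i : α → ℕ} (hc : Measurable c)
    (hi : Measurable i) : Measurable fun a => D (c a) (i a) :=
  (measurable_of_countable (Function.uncurry D)).comp (hc.prodMk hi)

theorem measurable_dies : ∀ k n i, Measurable fun y : ℕ → ℕ => Dies y k n i
  | 0, _, _ => measurable_const
  | k + 1, n, i => by
    simp only [Dies]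
    refine Measurable.forall fun j => Measurable.imp ?_ (measurable_dies k (n + 1) j)
    exact measurable_const.lt (measurable_D (measurable_pi_apply n) measurable_const)

theorem measurable_term : Measurable Term :=
  Measurable.forall fun n => Measurable.forall fun i =>
    Measurable.exists fun k => measurable_dies k n i

theorem measurable_strictMono : Measurable fun y : ℕ → ℕ => StrictMono y := by
  have : (fun y : ℕ → ℕ => StrictMono y) = fun y => ∀ n, y n < y (n + 1) := by
    funext y
    exact propext ⟨fun h n => h (Nat.lt_succ_self n), strictMono_nat_of_lt_succ⟩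
  rw [this]
  exact Measurable.forall fun n => (measurable_pi_apply n).lt (measurable_pi_apply _)

theorem measurable_thread : Measurable fun p : (ℕ → ℕ) × (ℕ → ℕ) => Thread p.1 p.2 := by
  have h1 : ∀ n, Measurable fun p : (ℕ → ℕ) × (ℕ → ℕ) => D (p.1 n) (p.2 n) := fun n =>
    measurable_D ((measurable_pi_apply n).comp measurable_fst)
      ((measurable_pi_apply n).comp measurable_snd)
  have h2 : ∀ n, Measurable fun p : (ℕ → ℕ) × (ℕ → ℕ) => p.2 n := fun n =>
    (measurable_pi_apply n).comp measurable_snd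
  refine Measurable.and (Measurable.forall fun n => measurableSet_setOfPred.1 (measurableSet_le (h2 _) (h1 n)))
    (Measurable.forall fun m => Measurable.exists fun n =>
      Measurable.and measurable_const ((h2 _).lt (h1 n)))

theorem analytic_IF {φ : (ℕ → ℕ) → (ℕ → ℕ)} (hφ : Measurable φ) (i : ℕ) :
    AnalyticSet {x | IF (φ x) i} := by
  have h1 : MeasurableSet {p : (ℕ → ℕ) × (ℕ → ℕ) | p.2 0 = i ∧ Thread (φ p.1) p.2} := by
    refine MeasurableSet.inter ?_ ?_
    · exact measurableSet_eq_fun ((measurable_pi_apply 0).comp measurable_snd) measurable_const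
    · exact (measurable_thread.comp ((hφ.comp measurable_fst).prodMk measurable_snd)).setOf
  have := h1.analyticSet_image measurable_fst
  convert this using 1
  ext x
  simp [IF]

theorem analytic_A : AnalyticSet A := by
  have h1 : MeasurableSet {p : (ℕ → ℕ) × (ℕ → ℕ) |
      StrictMono p.1 ∧ ∃ n, Term (sh n p.1) ∧ Thread (sh n p.1) p.2} := by
    refine Measurable.setOf (Measurable.and (measurable_strictMono.comp measurable_fst)
      (Measurable.exists fun n => Measurable.and
        (measurable_term.comp ((measurable_sh n).comp measurable_fst)) ?_))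
    exact measurable_thread.comp (((measurable_sh n).comp measurable_fst).prodMk measurable_snd)
  have := h1.analyticSet_image measurable_fst
  convert this using 1
  ext x
  simp only [A, IF, mem_ofPred_eq, mem_image, Prod.exists, exists_and_right, exists_eq_right]
  constructor
  · rintro ⟨h, n, h1, i, g, -, h2⟩
    exact ⟨g, h, n, h1, h2⟩
  · rintro ⟨g, h, n, h1, h2⟩
    exact ⟨h, n, h1, _, g, rfl, h2⟩

/-! No homomorphism -/

def Mk (y : ℕ → ℕ) : Prop :=
  ∃ i, IF y i ∧ (∀ i', i' < i → ¬ IF y i') ∧ ∃ j, j < D (y 0) i ∧ IF (sh 1 y) j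

theorem not_all_Mk {y : ℕ → ℕ} (h : Term y) : ¬ ∀ n, Mk (sh n y) := by
  intro hM
  choose i hi hmin j hj hj' using hM
  obtain ⟨k, hk⟩ := h 0 (i 0)
  refine not_descent (fun n => ?_) k 0 hk
  have h1 : i (n + 1) ≤ j n := by
    by_contra hc
    refine hmin (n + 1) (j n) (by omega) ?_
    have := hj' n
    rwa [sh_sh, Nat.add_comm] at this
  have h2 := hj n
  simp only [sh, Nat.zero_add] at h2
  omega

theorem not_all_not_Mk {y : ℕ → ℕ} (h : ∃ i, IF y i) : ¬ ∀ n, ¬ Mk (sh n y) := by
  classical
  intro hM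
  obtain ⟨g, hg0, hg⟩ := Nat.find_spec h
  have hIF : ∀ n, IF (sh n y) (g n) := fun n => ⟨sh n g, by simp [sh], hg.sh n⟩
  have hmin : ∀ n, ∀ i', i' < g n → ¬ IF (sh n y) i' := by
    intro n
    induction n with
    | zero => intro i' hi'; exact Nat.find_min h (hg0 ▸ hi')
    | succ n ih =>
      intro i' hi' h2
      refine hM n ⟨g n, hIF n, ih, i', ?_, by rwa [sh_sh, Nat.add_comm]⟩
      have := hg.1 n
      simp only [sh, Nat.zero_add]
      omega
  obtain ⟨n, -, hn⟩ := hg.2 0
  refine hM n ⟨g n, hIF n, hmin n, g (n + 1), by simpa [sh] using hn, ?_⟩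
  rw [sh_sh, Nat.add_comm]
  exact hIF _

theorem no_hom : ¬ ∃ φ : (ℕ → ℕ) → (ℕ → ℕ), Measurable φ ∧
    ∀ x : ℕ → ℕ, StrictMono x → φ x ∈ A ∧
      (φ (x ∘ Nat.succ) = φ x ∘ Nat.succ ∨ φ x = φ (x ∘ Nat.succ) ∘ Nat.succ) := by
  rintro ⟨φ, hφ, h⟩
  let W : Ultrafilter ℕ := Ultrafilter.of atTop
  have han : ∀ Z : Set (ℕ → ℕ), AnalyticSet Z → MeasurableSet[decided W] Z := by
    intro Z hZ s
    by_cases h1 : Force W s Zᶜ
    · exact Or.inr h1
    · exact Or.inl (force_analytic id (fun a b n hab => hab n (by omega)) hZ s h1)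
  have hme : ∀ Z : Set (ℕ → ℕ), MeasurableSet Z → MeasurableSet[decided W] Z :=
    fun Z hZ => han Z hZ.analyticSet
  have hmono : Force W [] {a | StrictMono a} := by
    refine ⟨fun u => Ioi (u.headD 0), fun u => Ultrafilter.of_le atTop (Ioi_mem_atTop _), ?_⟩
    intro a _ ha
    exact strictMono_nat_of_lt_succ fun n => by simpa using ha (n + 1) (by simp)
  have hsm : ∀ a : ℕ → ℕ, StrictMono a → ∀ n, StrictMono (sh n a) :=
    fun a ha n i j hij => ha (by omega)
  have hD : MeasurableSet {x : ℕ → ℕ | φ (sh 1 x) = sh 1 (φ x)} :=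
    measurableSet_eq_fun (hφ.comp (measurable_sh 1)) ((measurable_sh 1).comp hφ)
  have hM : MeasurableSet[decided W] {x | Mk (φ x)} := by
    have h1 : ∀ i, Measurable[decided W] fun x => IF (φ x) i := fun i =>
      (@measurableSet_setOfPred _ (decided W) _).1 (han _ (analytic_IF hφ i))
    have h2 : ∀ i, Measurable[decided W] fun x => IF (sh 1 (φ x)) i := fun i =>
      (@measurableSet_setOfPred _ (decided W) _).1 (han _ (analytic_IF ((measurable_sh 1).comp hφ) i))
    have h3 : ∀ i j, Measurable[decided W] fun x => j < D (φ x 0) i := fun i j =>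
      (@measurableSet_setOfPred _ (decided W) _).1 (hme _ (measurable_const.lt
        (measurable_D ((measurable_pi_apply 0).comp hφ) measurable_const)).setOf)
    let := decided W
    exact (Measurable.exists fun i => (h1 i).and (Measurable.and
      (Measurable.forall fun i' => Measurable.imp measurable_const (h1 i').not)
      (Measurable.exists fun j => (h3 i j).and (h2 j)))).setOf
  rcases hme _ hD [] with h1 | h1
  · have key : ∀ Z, Force W [] Z → ∃ y, Term y ∧ (∃ i, IF y i) ∧
        ∀ n, ∃ x ∈ Z, φ x = sh n y := by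
      intro Z hZ
      obtain ⟨a, ha, ha'⟩ := (hmono.inter (force_all_sh _ fun _ => h1.inter hZ)).exists_root
      have e : ∀ n, φ (sh n a) = sh n (φ a) := by
        intro n
        induction n with
        | zero => rfl
        | succ n ih =>
          have := (ha' n).1
          simp only [mem_ofPred_eq] at this
          rwa [ih, sh_sh, sh_sh, Nat.add_comm] at this
      obtain ⟨-, p, h2, h3⟩ := (h a ha).1
      exact ⟨_, h2, h3, fun n => ⟨_, (ha' (n + p)).2, by rw [e, sh_sh]⟩⟩
    rcases hM [] with h2 | h2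
    · obtain ⟨y, h3, -, h4⟩ := key _ h2
      refine not_all_Mk h3 fun n => ?_
      obtain ⟨x, hx, e⟩ := h4 n
      exact e ▸ hx
    · obtain ⟨y, -, h3, h4⟩ := key _ h2
      refine not_all_not_Mk h3 fun n => ?_
      obtain ⟨x, hx, e⟩ := h4 n
      exact e ▸ hx
  · obtain ⟨a, ha, ha'⟩ := (hmono.inter (force_all_sh _ fun _ => h1)).exists_root
    have e : ∀ n, φ a = sh n (φ (sh n a)) := by
      intro n
      induction n with
      | zero => rfl
      | succ n ih =>
        have h2 := ((h _ (hsm a ha n)).2).resolve_left (ha' n)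
        rw [ih, h2, sh_comp_succ]
        funext k
        simp only [sh, Function.comp]
        rfl
    have h2 := ((h _ (hsm a ha (φ a 0 + 1))).1).1.id_le (0 + (φ a 0 + 1))
    have h3 := congrFun (e (φ a 0 + 1)) 0
    simp only [sh, id] at h2 h3
    omega

end Pool.Agent.MP_aa180b_lc.H48
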