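import Pool.Agent.MP_aa180b_lc.H48.Order

/-! Positivity: forcing with finite sets of ordinals. -/

set_option autoImplicit false

namespace Pool.Agent.MP_aa180b_lc.H48

open Set Filter Topology MeasureTheory

noncomputable section
open Classical

abbrev O := Ordinal.{0}

def pos (s : Finset O) (β : O) : ℕ := (s.filter (· < β)).card

def tr (s t : Finset O) (i : ℕ) : ℕ := (t.filter fun γ => ∃ β ∈ s, pos s β = i ∧ γ < β).card

def code (s t : Finset O) : ℕ :=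
  Nat.pair t.card (Encodable.encode ((List.range s.card).map (tr s t)))

def Y (a : ℕ → Finset O) (n : ℕ) : ℕ := code (a n) (a (n + 1))

theorem pos_lt_pos {s : Finset O} {β γ : O} (hβ : β ∈ s) (h : β < γ) : pos s β < pos s γ := by
  refine Finset.card_lt_card ⟨fun x hx => ?_, fun hs => ?_⟩
  · simp only [Finset.mem_filter] at hx ⊢
    exact ⟨hx.1, hx.2.trans h⟩
  · have := hs (Finset.mem_filter.2 ⟨hβ, h⟩)
    simp at this

theorem pos_lt_card {s : Finset O} {β : O} (hβ : β ∈ s) : pos s β < s.card := by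
  refine Finset.card_lt_card ⟨Finset.filter_subset _ _, fun hs => ?_⟩
  have := hs hβ
  simp at this

theorem pos_inj {s : Finset O} {β γ : O} (hβ : β ∈ s) (hγ : γ ∈ s) (h : pos s β = pos s γ) :
    β = γ := by
  rcases lt_trichotomy β γ with h1 | h1 | h1
  · have := pos_lt_pos hβ h1; omega
  · exact h1
  · have := pos_lt_pos hγ h1; omega

theorem pos_surj {t : Finset O} {β : O} {j : ℕ} (hj : j < pos t β) :
    ∃ γ ∈ t, γ < β ∧ pos t γ = j := by
  have := Finset.surj_on_of_inj_on_of_card_le (s := t.filter (· < β))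
    (t := Finset.range (pos t β)) (fun γ _ => pos t γ)
    (fun γ hγ => by
      rw [Finset.mem_filter] at hγ
      exact Finset.mem_range.2 (pos_lt_pos hγ.1 hγ.2))
    (fun γ γ' h1 h2 h => pos_inj (Finset.mem_filter.1 h1).1 (Finset.mem_filter.1 h2).1 h)
    (by simp [pos]) j (Finset.mem_range.2 hj)
  obtain ⟨γ, hγ, rfl⟩ := this
  rw [Finset.mem_filter] at hγ
  exact ⟨γ, hγ.1, hγ.2, rfl⟩

theorem tr_eq_zero {s t : Finset O} {i : ℕ} (h : ∀ β ∈ s, pos s β ≠ i) : tr s t i = 0 := by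
  simp only [tr, Finset.card_eq_zero, Finset.filter_eq_empty_iff]
  rintro γ - ⟨β, hβ, h1, -⟩
  exact h β hβ h1

theorem D_code (s t : Finset O) (i : ℕ) : D (code s t) i = tr s t i := by
  simp only [D, code, Nat.unpair_pair, Denumerable.ofNat_encode]
  by_cases hi : i < s.card
  · simp [List.getD, hi]
  · rw [tr_eq_zero fun β hβ h => hi (by rw [← h]; exact pos_lt_card hβ)]
    simp [List.getD, hi]

theorem tr_pos {s : Finset O} (t : Finset O) {β : O} (hβ : β ∈ s) :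
    tr s t (pos s β) = pos t β := by
  simp only [tr]
  congr 1
  refine Finset.filter_congr fun γ _ => ⟨?_, fun h => ⟨β, hβ, rfl, h⟩⟩
  rintro ⟨β', hβ', h1, h2⟩
  rwa [pos_inj hβ' hβ h1] at h2

theorem D_Y (a : ℕ → Finset O) (n : ℕ) {β : O} (hβ : β ∈ a n) :
    D (Y a n) (pos (a n) β) = pos (a (n + 1)) β := by
  rw [Y, D_code, tr_pos _ hβ]

theorem dies_unif {y : ℕ → ℕ} {n : ℕ} : ∀ N : ℕ, (∀ j < N, ∃ k, Dies y k n j) →
    ∃ k, ∀ j < N, Dies y k n j
  | 0, _ => ⟨0, by simp⟩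
  | N + 1, h => by
    obtain ⟨k, hk⟩ := dies_unif N fun j hj => h j (by omega)
    obtain ⟨k', hk'⟩ := h N (by omega)
    refine ⟨max k k', fun j hj => ?_⟩
    rcases Nat.lt_succ_iff_lt_or_eq.1 hj with h1 | rfl
    exacts [(hk j h1).mono' (le_max_left _ _), hk'.mono' (le_max_right _ _)]

theorem term_Y (a : ℕ → Finset O) : Term (Y a) := by
  have key : ∀ β : O, ∀ n, β ∈ a n → ∃ k, Dies (Y a) k n (pos (a n) β) := by
    intro β
    induction β using WellFoundedLT.induction with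
    | ind β ih =>
      intro n hβ
      obtain ⟨k, hk⟩ := dies_unif (y := Y a) (n := n + 1) (pos (a (n + 1)) β) fun j hj => by
        obtain ⟨γ, hγ, h1, rfl⟩ := pos_surj hj
        exact ih γ h1 _ hγ
      exact ⟨k + 1, fun j hj => hk j (by rwa [D_Y a n hβ] at hj)⟩
  intro n i
  by_cases h : ∃ β ∈ a n, pos (a n) β = i
  · obtain ⟨β, hβ, rfl⟩ := h
    exact key β n hβ
  · refine ⟨1, fun j hj => ?_⟩
    rw [Y, D_code, tr_eq_zero fun β hβ h1 => h ⟨β, hβ, h1⟩] at hj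
    omega

theorem Y_local (a b : ℕ → Finset O) (n : ℕ) (h : ∀ i < n + 2, a i = b i) : Y a n = Y b n := by
  rw [Y, Y, h n (by omega), h (n + 1) (by omega)]

theorem Y_sh (a : ℕ → Finset O) (n : ℕ) : Y (sh n a) = sh n (Y a) := by
  funext k
  simp only [Y, sh]
  rw [show k + 1 + n = k + n + 1 by omega]

def W : Ultrafilter (Finset O) := Ultrafilter.of atTop

theorem force_mem (ξ : O) (s : List (Finset O)) :
    Force W s {a | ∀ k, s.length ≤ k → ξ ∈ a k} := by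
  refine ⟨fun _ => Ici {ξ}, fun _ => Ultrafilter.of_le atTop (Ici_mem_atTop _), ?_⟩
  intro a _ ha k hk
  simpa using ha k hk

theorem force_mono : Force W [] {a | StrictMono (Y a)} := by
  refine ⟨fun u => {x | code (u.getD 1 ∅) (u.getD 0 ∅) < x.card}, fun u => ?_, ?_⟩
  · obtain ⟨s, hs⟩ := Infinite.exists_subset_card_eq O (code (u.getD 1 ∅) (u.getD 0 ∅) + 1)
    refine Ultrafilter.of_le atTop (mem_of_superset (Ici_mem_atTop s) fun x hx => ?_)
    have := Finset.card_le_card (show s ⊆ x from hx)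
    simp only [mem_ofPred_eq]
    omega
  · intro a _ ha
    refine strictMono_nat_of_lt_succ fun n => ?_
    have := ha (n + 2) (by simp)
    exact lt_of_lt_of_le this (Nat.left_le_pair _ _)

theorem pigeon {ι : Type} [Countable ι] (P : ι → O → Prop) (h : ∀ ξ, ∃ i β, ξ ≤ β ∧ P i β) :
    ∃ i, ∀ ξ, ∃ β, ξ ≤ β ∧ P i β := by
  by_contra hc
  push Not at hc
  choose ξ hξ using hc
  obtain ⟨η, hη⟩ : BddAbove (range ξ) := Ordinal.bddAbove_of_small
  obtain ⟨i, β, h1, h2⟩ := h η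
  exact hξ i β ((hη ⟨i, rfl⟩).trans h1) h2

theorem exists_lim (k : ℕ → ℕ) (hk : StrictMono k) (w : ℕ → ℕ → ℕ)
    (h : ∀ n, ∀ i < k n, w (n + 1) i = w n i) : ∃ y : ℕ → ℕ, ∀ n, ∀ i < k n, y i = w n i := by
  have h1 : ∀ n m, n ≤ m → ∀ i < k n, w m i = w n i := by
    intro n m hm i hi
    induction m, hm using Nat.le_induction with
    | base => rfl
    | succ m hm ih => rw [h m i (hi.trans_le (hk.monotone hm)), ih]
  refine ⟨fun i => w (i + 1) i, fun n i hi => ?_⟩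
  have h2 : i < k (i + 1) := hk.id_le (i + 1)
  rcases le_total n (i + 1) with h3 | h3
  · exact h1 _ _ h3 i hi
  · exact (h1 _ _ h3 i h2).symm

/-- visible data realised by a node with a marked ordinal -/
def Q (f : (ℕ → ℕ) → (ℕ → ℕ)) (k : ℕ) (σ u : List ℕ) (p : ℕ) (β : O) : Prop :=
  ∃ a : ℕ → Finset O, β ∈ a k ∧ pos (a k) β = p ∧ pre (Y a) k = σ ∧
    ¬ Force W (pre a (k + 1)) (Y ⁻¹' cyl f u)ᶜ

structure St where
  k : ℕ
  y : ℕ → ℕ
  g : ℕ → ℕ
  u : List ℕ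

def Good (f : (ℕ → ℕ) → (ℕ → ℕ)) (s : St) : Prop :=
  ∀ ξ, ∃ β, ξ ≤ β ∧ Q f s.k (pre s.y s.k) s.u (s.g s.k) β

def Nx (s t : St) : Prop :=
  s.k < t.k ∧ (∀ i < s.k, t.y i = s.y i) ∧ (∀ i < s.k + 1, t.g i = s.g i) ∧
    (∃ j, t.u = j :: s.u) ∧ (∀ n, s.k ≤ n → n < t.k → t.g (n + 1) ≤ D (t.y n) (t.g n)) ∧
    t.g (s.k + 1) < D (t.y s.k) (t.g s.k)

theorem good_of (f : (ℕ → ℕ) → (ℕ → ℕ)) (R : St → Prop)
    (h : ∀ ξ, ∃ t β, ξ ≤ β ∧ Q f t.k (pre t.y t.k) t.u (t.g t.k) β ∧ R t) :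
    ∃ t, Good f t ∧ R t := by
  obtain ⟨i, hi⟩ := pigeon (ι := ℕ × List ℕ × List ℕ × ℕ)
    (fun i β => ∃ t : St, i = (t.k, pre t.y t.k, t.u, t.g t.k) ∧
      Q f t.k (pre t.y t.k) t.u (t.g t.k) β ∧ R t) (fun ξ => by
    obtain ⟨t, β, h1, h2⟩ := h ξ
    exact ⟨_, β, h1, t, rfl, h2⟩)
  obtain ⟨_, -, t, rfl, -, ht⟩ := hi 0
  refine ⟨t, fun ξ => ?_, ht⟩
  obtain ⟨β, h1, t', e, h2, -⟩ := hi ξ
  simp only [Prod.mk.injEq] at e
  obtain ⟨e1, e2, e3, e4⟩ := e
  exact ⟨β, h1, by rw [e2, e3, e4, e1]; exact h2⟩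

theorem good_step (f : (ℕ → ℕ) → (ℕ → ℕ)) (s : St) (hs : Good f s) :
    ∃ t, Good f t ∧ Nx s t := by
  refine good_of f _ fun ξ => ?_
  obtain ⟨β, hβ, a, h1, h2, h3, h4⟩ := hs (Order.succ ξ)
  have hlt : ξ < β := Order.succ_le_iff.1 hβ
  obtain ⟨b, ⟨⟨k, hk, j, hj⟩, hm⟩, hb⟩ := ((hit_cyl Y f _ _ h4).inter (force_mem ξ _)).exists
  rw [length_pre] at hk hm
  rw [pre_eq_iff] at hb h3
  obtain ⟨k, rfl⟩ : ∃ k', k = k' + 1 := ⟨k - 1, by omega⟩
  have hstrict : pos (b (s.k + 1)) ξ < D (Y b s.k) (s.g s.k) := by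
    rw [← h2, ← hb s.k (by omega), D_Y b _ (by rwa [hb s.k (by omega)])]
    exact pos_lt_pos (hm _ le_rfl) hlt
  refine ⟨⟨k, Y b, fun n => if n ≤ s.k then s.g n else pos (b n) ξ, j :: s.u⟩, ξ, le_rfl,
    ⟨b, hm k (by omega), by simp only; rw [if_neg (by omega)], rfl, hj⟩, by simp only; omega,
    fun i hi => ?_, fun i hi => if_pos (by omega), ⟨j, rfl⟩, fun n hn _ => ?_, ?_⟩
  · rw [← h3 i hi]
    exact Y_local _ _ _ fun l hl => hb l (by omega)
  · simp only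
    rw [if_neg (by omega)]
    rcases hn.eq_or_lt with rfl | hn
    · rw [if_pos le_rfl]; exact hstrict.le
    · rw [if_neg (by omega), D_Y b n (hm n hn)]
  · simp only
    rw [if_neg (by omega), if_pos le_rfl]; exact hstrict

theorem good_start (f : (ℕ → ℕ) → (ℕ → ℕ)) (h : ¬ Force W [] (Y ⁻¹' cyl f [])ᶜ) :
    ∃ t, Good f t ∧ t.u = [] := by
  refine good_of f _ fun ξ => ?_
  obtain ⟨b, ⟨k, hk, j, hj⟩, hm⟩ := ((hit_cyl Y f _ _ h).inter (force_mem ξ _)).exists_root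
  obtain ⟨k, rfl⟩ : ∃ k', k = k' + 1 := ⟨k - 1, by simp at hk; omega⟩
  refine ⟨⟨k, Y b, fun n => pos (b n) ξ, []⟩, ξ, le_rfl,
    ⟨b, hm k (by simp), rfl, rfl, fun h1 => hj (h1.mono ?_)⟩, rfl⟩
  refine compl_subset_compl.2 (preimage_mono ?_)
  rw [cyl_eq f []]
  exact subset_iUnion (fun j => cyl f [j]) j

/-- a forced analytic set contains a sequence with a thread -/
theorem ill {Z : Set (ℕ → ℕ)} (hZ : AnalyticSet Z) (h : ¬ Force W [] (Y ⁻¹' Z)ᶜ) :
    ∃ y ∈ Z, ∃ n i, IF (sh n y) i := by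
  rw [AnalyticSet] at hZ
  rcases hZ with rfl | ⟨f, hf, rfl⟩
  · exact (h (force_of_forall (by simp))).elim
  obtain ⟨s0, hs0, hu0⟩ := good_start f (by rwa [cyl_nil])
  have step : ∀ s : {s // Good f s}, ∃ t : {s // Good f s}, Nx s.1 t.1 := fun s => by
    obtain ⟨t, h1, h2⟩ := good_step f s.1 s.2
    exact ⟨⟨t, h1⟩, h2⟩
  choose nx hnx using step
  let S : ℕ → St := fun n => (nx^[n] ⟨s0, hs0⟩).1
  have hG : ∀ n, Good f (S n) := fun n => (nx^[n] ⟨s0, hs0⟩).2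
  have hN : ∀ n, Nx (S n) (S (n + 1)) := fun n => by
    simp only [S]
    rw [Function.iterate_succ_apply']; exact hnx _
  have hk : StrictMono fun n => (S n).k := strictMono_nat_of_lt_succ fun n => (hN n).1
  obtain ⟨y, hy⟩ := exists_lim _ hk (fun n => (S n).y) fun n => (hN n).2.1
  obtain ⟨g, hg⟩ := exists_lim (fun n => (S n).k + 1) (hk.add_const 1) (fun n => (S n).g)
    fun n => (hN n).2.2.1
  refine ⟨y, mem_range_of_seq hf y (fun n => (S n).u) hu0 (fun n => (hN n).2.2.2.1) fun n => ?_,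
    (S 0).k, _, sh (S 0).k g, rfl, fun m => ?_, fun m => ?_⟩
  · obtain ⟨β, -, a, -, -, h3, h4⟩ := hG n 0
    obtain ⟨b, hb, hb'⟩ := exists_of_not_force h4
    rw [length_pre, pre_eq_iff] at hb
    rw [pre_eq_iff] at h3
    have h5 : n ≤ (S n).k := hk.id_le n
    refine ⟨Y b, hb', fun i hi => ?_⟩
    rw [hy n i (by omega), ← h3 i (by omega)]
    exact Y_local _ _ _ fun l hl => hb l (by omega)
  · have hex : ∃ n, m + (S 0).k < (S n).k := ⟨_, hk.id_le (m + (S 0).k + 1)⟩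
    have h1 := Nat.find_spec hex
    obtain ⟨n, hn⟩ : ∃ n, Nat.find hex = n + 1 := by
      refine Nat.exists_eq_succ_of_ne_zero fun h0 => ?_
      rw [h0] at h1; omega
    have h2 := Nat.find_min hex (m := n) (by omega)
    rw [hn] at h1
    have h3 := (hN n).2.2.2.2.1 (m + (S 0).k) (by omega) h1
    simp only [sh]
    rw [show m + 1 + (S 0).k = m + (S 0).k + 1 by omega, hg (n + 1) _ (by omega),
      hg (n + 1) _ (by omega), hy (n + 1) _ h1]
    exact h3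
  · have h1 : m + (S 0).k ≤ (S (m + (S 0).k)).k := hk.id_le _
    have h2 := (hN (m + (S 0).k)).1
    have h3 := (hN (m + (S 0).k)).2.2.2.2.2
    refine ⟨(S (m + (S 0).k)).k - (S 0).k, by omega, ?_⟩
    simp only [sh]
    rw [show (S (m + (S 0).k)).k - (S 0).k + 1 + (S 0).k = (S (m + (S 0).k)).k + 1 by omega,
      show (S (m + (S 0).k)).k - (S 0).k + (S 0).k = (S (m + (S 0).k)).k by omega,
      hg (m + (S 0).k + 1) _ (by omega), hg (m + (S 0).k + 1) _ (by omega),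
      hy (m + (S 0).k + 1) _ h2]
    exact h3

theorem force_dec {Z : Set (ℕ → ℕ)} (hZ : MeasurableSet Z) :
    Force W [] (Y ⁻¹' Z) ∨ Force W [] (Y ⁻¹' Z)ᶜ := by
  by_cases h : Force W [] (Y ⁻¹' Z)ᶜ
  · exact Or.inr h
  · exact Or.inl (force_analytic Y Y_local hZ.analyticSet [] h)

theorem meets_A {Z : Set (ℕ → ℕ)} (hZ : MeasurableSet Z) (h : Force W [] (Y ⁻¹' Z)) :
    ∃ y ∈ Z, y ∈ A := by
  have h1 : MeasurableSet (Z ∩ {y | StrictMono y ∧ Term y}) :=
    hZ.inter (measurable_strictMono.and measurable_term).setOf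
  obtain ⟨y, ⟨h2, h3, h4⟩, n, h5⟩ := ill h1.analyticSet fun hc => by
    obtain ⟨a, ⟨h2, h3⟩, h4⟩ := ((h.inter force_mono).inter hc).exists_root
    exact h4 ⟨h2, h3, term_Y a⟩
  exact ⟨y, h2, h3, n, h4.sh n, h5⟩

theorem positive : ¬ ∃ h : (ℕ → ℕ) → ℝ, Measurable h ∧
    (∀ x ∈ A, ∀ y ∈ A, (∃ m n : ℕ, ∀ k : ℕ, x (m + k) = y (n + k)) → h x = h y) ∧
    ∀ x ∈ A, ∃ n : ℕ, ∃ c : (ℕ → ℕ) → Fin n, Measurable c ∧
      ∀ y ∈ A, h y = h x → c (y ∘ Nat.succ) ≠ c y := by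
  rintro ⟨h, hm, hinv, hcol⟩
  have h1 : Force W [] (Y ⁻¹' {y | h (sh 1 y) = h y}) := by
    have hZ : MeasurableSet {y | h (sh 1 y) = h y} :=
      measurableSet_eq_fun (hm.comp (measurable_sh 1)) hm
    refine (force_dec hZ).resolve_right fun hc => ?_
    obtain ⟨y, hy, hA⟩ := meets_A hZ.compl hc
    have ht : ∃ m n : ℕ, ∀ k : ℕ, y (m + k) = sh 1 y (n + k) :=
      ⟨1, 0, fun k => by simp [sh, Nat.add_comm]⟩
    exact hy (hinv y hA _ (A_invariant y _ (fun i j hij => hA.1 (by omega)) ht hA) ht).symm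
  let q : ℕ → ℚ := Denumerable.ofNat ℚ
  have h2 : ∀ i, ∃ b : Prop, Force W [] {a | h (Y a) < q i ↔ b} := by
    intro i
    rcases force_dec (Z := {y | h y < q i}) (hm measurableSet_Iio) with h2 | h2
    · exact ⟨True, h2.mono fun a ha => by simpa using ha⟩
    · exact ⟨False, h2.mono fun a ha => by simpa using ha⟩
  choose b hb using h2
  have h3 : Force W [] {a | ∀ i, h (Y a) < q i ↔ b i} := by
    refine (force_all_sh _ fun i => h1.inter (hb i)).mono fun a ha i => ?_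
    have e : ∀ n, h (Y (sh n a)) = h (Y a) := by
      intro n
      induction n with
      | zero => rfl
      | succ n ih =>
        have := (ha n).1
        simp only [mem_preimage, mem_ofPred_eq] at this
        rw [← ih, ← this, ← Y_sh, sh_sh, Nat.add_comm]
    rw [← e i]
    exact (ha i).2
  obtain ⟨a0, ha0⟩ := h3.exists_root
  have h4 : Force W [] (Y ⁻¹' {y | h y = h (Y a0)}) := by
    refine h3.mono fun a ha => ?_
    refine eq_of_forall_lt_rat_iff_lt fun r => ?_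
    obtain ⟨i, rfl⟩ : ∃ i, q i = r := ⟨_, Denumerable.ofNat_encode r⟩
    rw [ha i, ha0 i]
  have hZ : MeasurableSet {y | h y = h (Y a0)} := hm (measurableSet_singleton _)
  obtain ⟨x, hx, hxA⟩ := meets_A hZ h4
  obtain ⟨n, c, hc, hc'⟩ := hcol x hxA
  have h5 : ∃ v, Force W [] (Y ⁻¹' {y | c y = v}) := by
    by_contra hn
    have := force_list (W := W) (s := []) (List.finRange n) (fun v => (Y ⁻¹' {y | c y = v})ᶜ)
      fun v _ => (force_dec (hc (measurableSet_singleton v))).resolve_left fun h' => hn ⟨v, h'⟩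
    obtain ⟨a, ha⟩ := this.exists_root
    exact ha (c (Y a)) (List.mem_finRange _) rfl
  obtain ⟨v, hv⟩ := h5
  have h6 : MeasurableSet ({y | h y = h (Y a0)} ∩ {y | c (sh 1 y) = c y}) :=
    hZ.inter (measurableSet_eq_fun (hc.comp (measurable_sh 1)) hc)
  obtain ⟨y, ⟨h7, h8⟩, hyA⟩ := meets_A h6 (by
    refine (h4.inter (force_all_sh _ fun _ => hv)).mono ?_
    rintro a ⟨h7, h8⟩
    refine ⟨h7, ?_⟩
    have e1 := h8 1
    have e0 := h8 0
    simp only [mem_preimage, mem_ofPred_eq, Y_sh, sh_zero] at e1 e0 ⊢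
    rw [e1, e0])
  exact hc' y hyA (h7.trans hx.symm) h8

end

end Pool.Agent.MP_aa180b_lc.H48
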